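import Pool.Agent.H1.Hud

namespace Pool.Agent.Results.MP_1ad87a_co.Linear

open UpperHalfPlane Pool.Agent.H1.Hud

/-- `G` has a disk representation with radius `r` in the hyperbolic plane. -/
def Rep {V : Type} (G : SimpleGraph V) (r : ℝ) : Prop :=
  0 < r ∧ ∃ p : V → ℍ, ∀ u v, u ≠ v → (G.Adj u v ↔ dist (p u) (p v) ≤ 2 * r)

lemma ch {r : ℝ} (h : 0 < r) (z w : ℍ) :
    dist z w ≤ 2 * r ↔ Real.cosh (dist z w) ≤ Real.cosh (2 * r) := by
  rw [Real.cosh_le_cosh, abs_of_nonneg dist_nonneg, abs_of_pos (by positivity)]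

noncomputable def geo {V : Type} (p : V → ℍ) (o : ℍ) (C : ℝ)
    (h : ∀ v, Real.cosh (dist (p v) o) ≤ C) : Geo V where
  t v := Real.cosh (dist (p v) o)
  p v := (((p v).re - o.re) ^ 2 + (p v).im ^ 2 - o.im ^ 2) / (2 * (p v).im * o.im)
  q v := ((p v).re - o.re) / (p v).im
  B u v := Real.cosh (dist (p u) (p v))
  C := C
  hB x y := by
    have := (p x).im_ne_zero
    have := (p y).im_ne_zero
    have := o.im_ne_zero
    simp only [cosh_dist']
    field_simp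
    ring
  b1 := by simp
  b2 _ _ := Real.one_le_cosh _
  b3 x y z e := by
    rw [show p y = p z from by_contra fun n => (Real.one_lt_cosh.2 (dist_ne_zero.2 n)).ne' e]
  t1 _ := Real.one_le_cosh _
  tC := h

def R {n : ℕ} (u v : Option (Bool × Fin n)) : Prop :=
  ∀ a ∈ u, ∀ b ∈ v, a.2 = b.2 ∨ a.1 = b.1 ∧ (a.2.val = b.2 + 1 ∨ b.2.val = a.2 + 1)

lemma pw (S : ℝ) (hS : 2 ≤ S) (s s' : Bool) (k j : ℕ) :
    ((if s then S else -S) * 4 ^ k - (if s' then S else -S) * 4 ^ j) ^ 2 + (4 ^ k) ^ 2 +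
      (4 ^ j) ^ 2 ≤ (1 + 2 * S ^ 2) * (2 * 4 ^ k * 4 ^ j) ↔
    k = j ∨ s = s' ∧ (k = j + 1 ∨ j = k + 1) := by
  wlog h : k ≤ j generalizing s s' k j
  · rw [← neg_sub, neg_sq, add_right_comm, mul_right_comm (2 : ℝ), this _ _ _ _ (by omega)]
    grind
  obtain ⟨d, rfl⟩ := Nat.exists_eq_add_of_le h
  rw [pow_add]
  have hX : (0 : ℝ) < (4 ^ k) ^ 2 := by positivity
  have hS : 4 ≤ S ^ 2 := by nlinarith
  generalize (4 : ℝ) ^ k = X at hX ⊢
  match d with
  | 0 => cases s <;> cases s' <;> simp <;> nlinarith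
  | 1 => cases s <;> cases s' <;> simp <;> nlinarith
  | d + 2 =>
    have : (16 : ℝ) ≤ 4 ^ (d + 2) := by
      rw [pow_add]; linarith [one_le_pow₀ (M₀ := ℝ) (a := 4) (n := d) (by norm_num)]
    generalize (4 : ℝ) ^ (d + 2) = Y at this ⊢
    have := mul_pos (mul_pos hX (show 0 < S ^ 2 by linarith))
      (show 0 < Y ^ 2 - 6 * Y + 1 by nlinarith)
    have := mul_pos (mul_pos hX (show 0 < S ^ 2 by linarith)) (show 0 < Y by linarith)
    have := mul_nonneg hX.le (sq_nonneg (Y - 1))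
    refine iff_of_false (not_le.2 ?_) (by omega)
    cases s <;> cases s' <;> simp <;> nlinarith

lemma ex (n : ℕ) : ∃ r > 0, ∃ p : Option (Bool × Fin n) → ℍ, ∀ u v,
    R u v ↔ dist (p u) (p v) ≤ 2 * r := by
  obtain ⟨S, hS, hk⟩ : ∃ S : ℝ, 2 ≤ S ∧ ∀ k : Fin n, 4 ^ k.val ≤ S :=
    ⟨2 + 4 ^ n, le_add_of_nonneg_right (by positivity), fun k =>
      (pow_le_pow_right₀ (by norm_num) k.2.le).trans (by linarith)⟩
  have r := Real.arsinh_pos_iff.2 (show 0 < S by linarith)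
  refine ⟨_, r, fun u => u.elim ⟨⟨0, 2 * S ^ 2⟩, by positivity⟩ fun a =>
    ⟨⟨(if a.1 then S else -S) * 4 ^ a.2.val, 4 ^ a.2.val⟩, by positivity⟩, fun u v => ?_⟩
  have k : ∀ (s : Bool) (k : Fin n), ((if s then S else -S) * 4 ^ k.val) ^ 2 + (2 * S ^ 2) ^ 2 +
      (4 ^ k.val) ^ 2 ≤ (1 + 2 * S ^ 2) * (2 * (2 * S ^ 2) * 4 ^ k.val) := fun s k => by
    have h1 := hk k
    have h2 : (1 : ℝ) ≤ 4 ^ k.val := one_le_pow₀ (by norm_num)
    generalize (4 : ℝ) ^ k.val = X at h1 h2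
    have h3 : X ^ 2 ≤ S ^ 2 := by nlinarith
    have h4 : 4 ≤ S ^ 2 := by nlinarith
    rw [mul_pow, show (if s then S else -S) ^ 2 = S ^ 2 by split_ifs <;> ring]
    generalize S ^ 2 = T at h3 h4
    nlinarith [mul_nonneg (sq_nonneg T) (sub_nonneg.2 h2)]
  rw [ch r, Real.cosh_two_mul, Real.cosh_sq', Real.sinh_arsinh, cosh_dist',
    div_le_iff₀ (by positivity), show 1 + S ^ 2 + S ^ 2 = 1 + 2 * S ^ 2 by ring]
  match u, v with
  | none, none => exact iff_of_true (by simp [R]) (by simp; nlinarith [sq_nonneg (S ^ 3)])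
  | none, some a => exact iff_of_true (by simp [R]) (by simpa using k a.1 a.2)
  | some a, none => exact iff_of_true (by simp [R]) (by have := k a.1 a.2; simp at this ⊢; linarith)
  | some a, some b => simpa [R, Fin.ext_iff] using (pw S hS a.1 b.1 a.2 b.2).symm

theorem result (N : ℕ) : ∃ (V : Type) (_ : Fintype V) (G : SimpleGraph V), N ≤ Fintype.card V ∧
    (∃ r, Rep G r) ∧ ∀ r, Rep G r → Fintype.card V ≤ 112 * r := by
  obtain ⟨r0, h0, p0, e0⟩ := ex (3 * (N + 9) + 3)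
  refine ⟨Option (Bool × Fin (3 * (N + 9) + 3)), inferInstance, .fromRel R, by simp; omega,
    ⟨r0, h0, p0, fun u v n => by simp [n, e0, dist_comm]⟩, ?_⟩
  rintro r ⟨h, p, e⟩
  have e : ∀ u v, R u v ↔ Real.cosh (dist (p u) (p v)) ≤ Real.cosh (2 * r) := fun u v => by
    rw [← ch h]
    by_cases n : u = v
    · simp [n, e0, h.le, h0.le]
    · simp [← e u v n, n, e0, dist_comm]
  have := fin (g := geo p (p none) _ fun v => (e v none).1 (by simp [R])) (n := 3 * (N + 9) + 3)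
    (P := fun s k => some (s, ⟨min k.toNat (3 * (N + 9) + 2), by omega⟩))
    (fun s s' k j _ _ _ _ => (e _ _).symm.trans (by simp [R]; grind)) (N + 9) (by omega) (by omega)
    (Real.one_lt_cosh.2 (by positivity))
  have k : Real.exp (1 / 4) ≤ 4 / 3 := (Real.exp_bound_div_one_sub_of_interval (by norm_num)
    (by norm_num)).trans (by norm_num)
  have k2 : Real.cosh (2 * r) ≤ Real.exp (2 * r) := by
    rw [Real.cosh_eq]; linarith [Real.exp_le_exp.2 (show -(2 * r) ≤ 2 * r by linarith)]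
  have := ((pow_le_pow_left₀ (by positivity) k _).trans this).trans
    (pow_le_pow_left₀ (Real.cosh_pos _).le k2 2)
  rw [← Real.exp_nat_mul, ← Real.exp_nat_mul, Real.exp_le_exp] at this
  simp at this ⊢
  linarith [(N.cast_nonneg : (0 : ℝ) ≤ N)]

end Pool.Agent.Results.MP_1ad87a_co.Linear
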